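import Pool.Agent.Q156.MW.M4

/-!
The asymptotic formula for the number of simultaneous primes.
-/

set_option autoImplicit false

namespace Pool.Agent.Q156.MW

open Finset Filter Topology Polynomial
open Pool.Agent.H373R2.T7 (pz Vz mem_pz Vz_low Vz_pos Vz_le_one Vz_inv_small)
open Pool.Agent.TH204.WR (rt evt_log_ge)

lemma loglog_small (m : ℕ) (δ : ℝ) (hδ : 0 < δ) : ∀ᶠ x : ℕ in atTop, Real.log (Real.log x) ^ m ≤ δ * Real.log x := by
  have hl : Tendsto (fun Y : ℕ => Real.log Y) atTop atTop :=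
    Real.tendsto_log_atTop.comp tendsto_natCast_atTop_atTop
  have h1 := (Real.isLittleO_pow_log_id_atTop (n := m)).bound hδ
  have h2 := hl.eventually h1
  filter_upwards [h2, hl.eventually_ge_atTop 1] with x h3 h4
  rw [id, Real.norm_of_nonneg (by linarith : (0 : ℝ) ≤ Real.log x)] at h3
  exact (Real.le_norm_self _).trans h3

lemma pos_evt {n : ℕ} (F : Fin n → ℤ[X]) (E : ℕ) (hE : 1 ≤ E) : ∃ X0 : ℕ, ∀ x : ℕ, X0 ≤ x →
    1 / Real.log x ≤ (∏ p ∈ (Icc 1 (2 * cF F)).filter Nat.Prime, (1 / (p : ℝ))) *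
      Vz ⌊Real.log x ^ E⌋₊ ^ (2 * cF F) := by
  obtain ⟨C', N0, hV⟩ := Vz_low
  obtain ⟨P0, hP0⟩ : ∃ P0, P0 = ∏ p ∈ (Icc 1 (2 * cF F)).filter Nat.Prime, (1 / (p : ℝ)) := ⟨_, rfl⟩
  have hP0p : 0 < P0 := by
    rw [hP0]
    apply prod_pos
    intro p hp
    have : (0 : ℝ) < p := by exact_mod_cast (mem_filter.1 hp).2.pos
    positivity
  rw [← hP0]
  obtain ⟨m, hm⟩ : ∃ m, m = C' * (2 * cF F) := ⟨_, rfl⟩
  have hE0 : (0 : ℝ) < (E : ℝ) ^ m := by positivity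
  have hev := (loglog_small m (P0 / (E : ℝ) ^ m) (by positivity)).and
    (evt_log_ge (N0 + 3))
  obtain ⟨X0, h0⟩ := eventually_atTop.1 hev
  refine ⟨X0, fun x hx => ?_⟩
  obtain ⟨h1, h2⟩ := h0 x hx
  obtain ⟨L, hL⟩ : ∃ L, L = Real.log x := ⟨_, rfl⟩
  rw [← hL] at h1 h2 ⊢
  have hN0 : (0 : ℝ) ≤ N0 := Nat.cast_nonneg _
  have hL3 : 3 ≤ L := by linarith
  have hL0 : 0 < L := by linarith
  have hLE : L ≤ L ^ E := le_self_pow₀ (by linarith) (by omega)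
  have hz1 : N0 ≤ ⌊L ^ E⌋₊ := Nat.le_floor (by linarith)
  have hz3 : 3 ≤ ⌊L ^ E⌋₊ := Nat.le_floor (by push_cast; linarith)
  have hz3r : (3 : ℝ) ≤ (⌊L ^ E⌋₊ : ℝ) := by exact_mod_cast hz3
  have h3 := hV _ hz1
  have hlz0 : 0 < Real.log (⌊L ^ E⌋₊ : ℝ) := Real.log_pos (by linarith)
  have hlz : Real.log (⌊L ^ E⌋₊ : ℝ) ≤ E * Real.log L := by
    rw [← Real.log_pow]
    exact Real.log_le_log (by linarith) (Nat.floor_le (by positivity))
  have hlL : 0 < Real.log L := Real.log_pos (by linarith)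
  have h4 : 1 / Real.log (⌊L ^ E⌋₊ : ℝ) ^ m ≤ Vz ⌊L ^ E⌋₊ ^ (2 * cF F) := by
    have h5 := pow_le_pow_left₀ (by positivity) h3 (2 * cF F)
    rw [div_pow, one_pow, ← pow_mul, ← hm] at h5
    exact h5
  have h6 : 1 / (E * Real.log L) ^ m ≤ 1 / Real.log (⌊L ^ E⌋₊ : ℝ) ^ m := by
    apply one_div_le_one_div_of_le (by positivity)
    exact pow_le_pow_left₀ hlz0.le hlz m
  have h7 : 1 / L ≤ P0 * (1 / (E * Real.log L) ^ m) := by
    rw [mul_one_div, div_le_div_iff₀ hL0 (by positivity), one_mul, mul_pow]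
    rw [div_mul_eq_mul_div, le_div_iff₀ hE0] at h1
    linarith
  exact h7.trans (mul_le_mul_of_nonneg_left (h6.trans h4) hP0p.le)

lemma log_near (θ : ℝ) (hθ : 0 < θ) (hθ1 : θ ≤ 1) (C : ℕ) : ∃ X0 : ℕ, ∀ x : ℕ, X0 ≤ x → ∀ v : ℝ,
    x / Real.log x ^ C ≤ v → v ≤ x * Real.log x ^ C →
    0 < Real.log v ∧ 1 - θ ≤ Real.log x / Real.log v ∧ Real.log x / Real.log v ≤ 1 + θ := by
  have hev := (loglog_small 1 (θ / (2 * (C + 1))) (by positivity)).and
    ((evt_log_ge 3).and (eventually_ge_atTop 1))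
  obtain ⟨X0, h0⟩ := eventually_atTop.1 hev
  refine ⟨X0, fun x hx v hv1 hv2 => ?_⟩
  obtain ⟨h1, h2, h3⟩ := h0 x hx
  have hx0 : (0 : ℝ) < x := by exact_mod_cast h3
  obtain ⟨L, hL⟩ : ∃ L, L = Real.log x := ⟨_, rfl⟩
  rw [← hL] at h1 h2 hv1 hv2 ⊢
  rw [pow_one] at h1
  have hL0 : 0 < L := by linarith
  have hlL : 0 < Real.log L := Real.log_pos (by linarith)
  have hC0 : (0 : ℝ) ≤ C := Nat.cast_nonneg _
  have hδ : C * Real.log L ≤ θ / 2 * L := by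
    calc (C : ℝ) * Real.log L ≤ (C + 1) * Real.log L := by nlinarith
      _ ≤ (C + 1) * (θ / (2 * (C + 1)) * L) := mul_le_mul_of_nonneg_left h1 (by positivity)
      _ = θ / 2 * L := by field_simp
  have hv0 : 0 < v := lt_of_lt_of_le (by positivity) hv1
  have h4 : L - C * Real.log L ≤ Real.log v := by
    have := Real.log_le_log (by positivity) hv1
    rwa [Real.log_div hx0.ne' (by positivity), Real.log_pow, ← hL] at this
  have h5 : Real.log v ≤ L + C * Real.log L := by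
    have := Real.log_le_log hv0 hv2
    rwa [Real.log_mul hx0.ne' (by positivity), Real.log_pow, ← hL] at this
  have h6 : 0 < Real.log v := by nlinarith
  refine ⟨h6, ?_, ?_⟩
  · rw [le_div_iff₀ h6]
    nlinarith
  · rw [div_le_iff₀ h6]
    nlinarith

lemma prod_near (n : ℕ) (ε : ℝ) (hε : 0 < ε) : ∃ θ : ℝ, 0 < θ ∧ θ ≤ 1 ∧ ∀ y : Fin n → ℝ,
    (∀ j, 1 - θ ≤ y j ∧ y j ≤ 1 + θ) → 1 - ε ≤ ∏ j, y j ∧ ∏ j, y j ≤ 1 + ε := by
  have h2n : (1 : ℝ) ≤ 2 ^ n := one_le_pow₀ (by norm_num)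
  have hn2 : (n : ℝ) ≤ 2 ^ n := by exact_mod_cast Nat.lt_two_pow_self.le
  obtain ⟨θ, hθ⟩ : ∃ θ, θ = min 1 (ε / 2 ^ n) := ⟨_, rfl⟩
  have hθ0 : 0 < θ := by rw [hθ]; positivity
  have hθ1 : θ ≤ 1 := by rw [hθ]; exact min_le_left _ _
  have hθε : 2 ^ n * θ ≤ ε := by
    have : θ ≤ ε / 2 ^ n := by rw [hθ]; exact min_le_right _ _
    rw [le_div_iff₀ (by positivity)] at this
    linarith
  refine ⟨θ, hθ0, hθ1, fun y hy => ?_⟩
  have hy0 : ∀ j, 0 ≤ y j := fun j => by linarith [(hy j).1]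
  constructor
  · have h1 : (1 - θ) ^ n ≤ ∏ j, y j := by
      have := Finset.prod_le_prod (s := (univ : Finset (Fin n))) (f := fun _ => 1 - θ) (g := y)
        (fun j _ => by linarith) (fun j _ => (hy j).1)
      simpa using this
    have h2 : 1 + n * (-θ) ≤ (1 + -θ) ^ n := one_add_mul_le_pow (by linarith) n
    have h3 : (n : ℝ) * θ ≤ 2 ^ n * θ := mul_le_mul_of_nonneg_right hn2 hθ0.le
    have h4 : (1 + -θ) ^ n = (1 - θ) ^ n := by ring
    rw [h4] at h2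
    linarith
  · have h1 : ∏ j, y j ≤ (1 + θ) ^ n := by
      have := Finset.prod_le_prod (s := (univ : Finset (Fin n))) (f := y) (g := fun _ => 1 + θ)
        (fun j _ => hy0 j) (fun j _ => (hy j).2)
      simpa using this
    have h2 : ∀ k : ℕ, (1 + θ) ^ k ≤ 1 + (2 ^ k - 1) * θ := by
      intro k
      induction k with
      | zero => simp
      | succ k ih =>
        have h3 : (1 : ℝ) ≤ 2 ^ k := one_le_pow₀ (by norm_num)
        calc (1 + θ) ^ (k + 1) = (1 + θ) ^ k * (1 + θ) := pow_succ _ _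
          _ ≤ (1 + (2 ^ k - 1) * θ) * (1 + θ) := mul_le_mul_of_nonneg_right ih (by linarith)
          _ ≤ 1 + (2 ^ (k + 1) - 1) * θ := by
              rw [pow_succ]
              nlinarith [mul_nonneg (sub_nonneg.2 h3) (mul_nonneg hθ0.le (sub_nonneg.2 hθ1))]
    have h3 := h2 n
    nlinarith

end Pool.Agent.Q156.MW
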