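import Pool.Agent.Q156.MW.M5

/-!
The asymptotic formula for the number of simultaneous primes, all weights equal to one.
-/

set_option autoImplicit false

namespace Pool.Agent.Q156.MW

open Finset Filter Topology Polynomial
open Pool.Agent.H373R2.T7 (pz Vz mem_pz Vz_low Vz_pos Vz_le_one Vz_inv_small)
open Pool.Agent.TH204.WR (rt evt_log_ge)

/-- the main term -/
noncomputable def mainS {n : ℕ} (F : Fin n → ℤ[X]) (a : Fin n → ℤ) (z x : ℕ) (u v : ℤ) : ℝ :=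
  ((v : ℝ) - u) / Real.log x ^ n *
    ∏ p ∈ (Icc 1 z).filter Nat.Prime, ((1 - (nu F a p : ℝ) / p) / (1 - 1 / (p : ℝ)) ^ n)

/-- the number of the simultaneous primes -/
noncomputable def cnt {n : ℕ} (F : Fin n → ℤ[X]) (a : Fin n → ℤ) (u v : ℤ) : ℕ :=
  ((Ioc u v).filter (fun m => ∀ j, ((F j).eval m + a j).natAbs.Prime)).card

lemma mainS_eq {n : ℕ} (F : Fin n → ℤ[X]) (a : Fin n → ℤ) (z x : ℕ) (u v : ℤ) :
    mainS F a z x u v = ((v : ℝ) - u) * dens F a z * ((Vz z)⁻¹ / Real.log x) ^ n := by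
  unfold mainS dens Vz pz
  rw [prod_div_distrib, prod_pow, div_pow, inv_pow]
  ring

lemma cnt_eq {n : ℕ} (F : Fin n → ℤ[X]) (a : Fin n → ℤ) (u v : ℤ) :
    (cnt F a u v : ℝ) = ∑ m ∈ Ioc u v, ∏ j, pr (F j) (a j) m := by
  unfold cnt pr
  rw [card_filter]
  push_cast
  apply sum_congr rfl
  intro m _
  rw [prod_boole]
  simp

lemma dens_nonneg {n : ℕ} (F : Fin n → ℤ[X]) (a : Fin n → ℤ) (z : ℕ) : 0 ≤ dens F a z := by
  unfold dens
  apply prod_nonneg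
  intro p hp
  have hp0 : (0 : ℝ) < p := by exact_mod_cast (mem_filter.1 hp).2.pos
  rw [sub_nonneg, div_le_one hp0]
  have : nu F a p ≤ p := by
    unfold nu
    refine (card_filter_le _ _).trans ?_
    rw [card_range]
  exact_mod_cast this

lemma md_eq {n : ℕ} (F : Fin n → ℤ[X]) (a : Fin n → ℤ) (z : ℕ) (L : ℝ) (hL : 0 < L) (m : ℤ)
    (h : ∀ j, ∀ p : ℕ, p.Prime → p ≤ z → ¬ (p : ℤ) ∣ (F j).eval m + a j) :
    ∏ j, md z (F j) (a j) m = ((Vz z)⁻¹ / L) ^ n * ∏ j, (L / Real.log |(((F j).eval m + a j : ℤ) : ℝ)|) := by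
  have e : (∏ p ∈ (Icc 1 z).filter Nat.Prime, (1 - 1 / (p : ℝ)))⁻¹ = (Vz z)⁻¹ := rfl
  have h1 : ∀ j, md z (F j) (a j) m = ((Vz z)⁻¹ / L) * (L / Real.log |(((F j).eval m + a j : ℤ) : ℝ)|) := by
    intro j
    unfold md
    rw [if_pos (h j), e]
    field_simp
  rw [prod_congr rfl fun j _ => h1 j, prod_mul_distrib, prod_const, card_univ, Fintype.card_fin]

lemma md_zero {n : ℕ} (F : Fin n → ℤ[X]) (a : Fin n → ℤ) (z : ℕ) (m : ℤ)
    (h : ¬ ∀ j, ∀ p : ℕ, p.Prime → p ≤ z → ¬ (p : ℤ) ∣ (F j).eval m + a j) :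
    ∏ j, md z (F j) (a j) m = 0 := by
  rw [not_forall] at h
  obtain ⟨j, hj⟩ := h
  apply prod_eq_zero (mem_univ j)
  unfold md
  rw [if_neg hj]

/-- **The asymptotic formula.** -/
theorem asym (n : ℕ) (k : Fin n → ℕ) (hk : ∀ j, 1 ≤ k j) (F : Fin n → ℤ[X]) (hF : ∀ j, (F j).natDegree = k j + 1)
    (ε : ℝ) (hε : 0 < ε) (U C : ℕ) :
    ∃ B E X0 : ℕ, ∀ x : ℕ, X0 ≤ x →
    ∃ Bad ⊆ Fintype.piFinset (fun _ : Fin n => Icc (-(x : ℤ)) x), (#Bad : ℝ) ≤ (x : ℝ) ^ n / Real.log x ^ U ∧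
    ∀ a ∈ Fintype.piFinset (fun _ : Fin n => Icc (-(x : ℤ)) x), a ∉ Bad →
    ∀ s : Fin n → ℤ, (∀ j, s j = 1 ∨ s j = -1) →
    ∀ u v : ℤ, Real.log x ^ B ≤ (v : ℝ) - u →
      (∀ j, ∀ m ∈ Ioc u v, x / Real.log x ^ C ≤ ((s j * ((F j).eval m + a j) : ℤ) : ℝ) ∧
        ((s j * ((F j).eval m + a j) : ℤ) : ℝ) ≤ x * Real.log x ^ C ∧
        ((s j * ((F j).eval m + a j) : ℤ) : ℝ) ≤ ((v : ℝ) - u) * (rt (k j) x ^ (k j) * Real.log x ^ C)) →
      |(cnt F a u v : ℝ) - mainS F a ⌊Real.log x ^ E⌋₊ x u v| ≤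
        ε * mainS F a ⌊Real.log x ^ E⌋₊ x u v + ((v : ℝ) - u) / Real.log x ^ U ∧
      ((∀ p : ℕ, p.Prime → ∃ m : ℤ, ∀ j, ¬ (p : ℤ) ∣ (F j).eval m + a j) →
        ((v : ℝ) - u) / Real.log x ^ (n + 1) ≤ mainS F a ⌊Real.log x ^ E⌋₊ x u v) := by
  classical
  have hF1 : ∀ j, 1 ≤ (F j).natDegree := fun j => by rw [hF j]; omega
  obtain ⟨ε₁, hε₁⟩ : ∃ ε₁, ε₁ = min ε 1 := ⟨_, rfl⟩
  have hε₁0 : 0 < ε₁ := by rw [hε₁]; exact lt_min hε one_pos
  have hε₁1 : ε₁ ≤ 1 := by rw [hε₁]; exact min_le_right _ _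
  have hε₁ε : ε₁ ≤ ε := by rw [hε₁]; exact min_le_left _ _
  obtain ⟨B0, E0, h⟩ := tuples n k hk F hF (U + 2) C 0
  obtain ⟨E, hE⟩ : ∃ E, E = max E0 1 := ⟨_, rfl⟩
  have hE0 : E0 ≤ E := by rw [hE]; exact le_max_left _ _
  have hE1 : 1 ≤ E := by rw [hE]; exact le_max_right _ _
  obtain ⟨X1, h⟩ := h E hE0
  obtain ⟨K1, z0, hK1, hr⟩ := rough_fund F hF1 (ε₁ / 4) (by positivity)
  obtain ⟨θ, hθ0, hθ1, hθ⟩ := prod_near n (ε₁ / 4) (by positivity)
  obtain ⟨X2, hlog⟩ := log_near θ hθ0 hθ1 C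
  obtain ⟨X3, hpos⟩ := pos_evt F E hE1
  obtain ⟨X4, hV⟩ := Vz_inv_small E
  have hev : ∀ᶠ x : ℕ in atTop, ((z0 : ℝ) + 4) ≤ Real.log x ∧ 2 * Real.log x ^ C ≤ (x : ℝ) ^ (1 : ℝ) :=
    (evt_log_ge ((z0 : ℝ) + 4)).and (by
      filter_upwards [Pool.Agent.TH204.WR.evt_log_pow (C + 1) (1 : ℝ) one_pos, evt_log_ge 2] with x h1 h2
      have h3 : 0 ≤ Real.log x ^ C := pow_nonneg (by linarith) _
      rw [pow_succ] at h1
      nlinarith)
  obtain ⟨X5, h5⟩ := eventually_atTop.1 hev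
  refine ⟨max B0 (E * K1 + U + 2), E, max (max X1 X2) (max (max X3 X4) X5), fun x hx => ?_⟩
  have hx1 : X1 ≤ x := (le_max_left _ _).trans ((le_max_left _ _).trans hx)
  have hx2 : X2 ≤ x := (le_max_right _ _).trans ((le_max_left _ _).trans hx)
  have hx3 : X3 ≤ x := (le_max_left _ _).trans ((le_max_left _ _).trans ((le_max_right _ _).trans hx))
  have hx4 : X4 ≤ x := (le_max_right _ _).trans ((le_max_left _ _).trans ((le_max_right _ _).trans hx))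
  have hx5 : X5 ≤ x := (le_max_right _ _).trans ((le_max_right _ _).trans hx)
  obtain ⟨hL, hxC⟩ := h5 x hx5
  have hpos := hpos x hx3
  have hlog := hlog x hx2
  obtain ⟨Bad, hB1, hB2, hB3⟩ := h x hx1 (fun _ _ => 1) (fun _ _ => by simp)
  obtain ⟨L, hLd⟩ : ∃ L, L = Real.log x := ⟨_, rfl⟩
  rw [← hLd] at hL hpos hlog hB2 hB3 hxC ⊢
  have hz0r : (0 : ℝ) ≤ z0 := Nat.cast_nonneg _
  have hL4 : 4 ≤ L := by linarith
  have hL1 : 1 ≤ L := by linarith
  have hL0 : 0 < L := by linarith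
  rw [Real.rpow_one] at hxC
  obtain ⟨z, hz⟩ : ∃ z, z = ⌊L ^ E⌋₊ := ⟨_, rfl⟩
  have hLE : L ≤ L ^ E := le_self_pow₀ hL1 (by omega)
  have hzz0 : z0 ≤ z := by
    rw [hz]
    exact Nat.le_floor (by linarith)
  have hz1 : 1 ≤ z := by
    rw [hz]
    exact Nat.le_floor (by push_cast; linarith)
  have hzL : (z : ℝ) ≤ L ^ E := by
    rw [hz]
    exact Nat.floor_le (by positivity)
  have hzV : (Vz z)⁻¹ ≤ L := by
    rw [hLd]
    exact hV x hx4 z hz1 (by rw [← hLd]; exact hzL)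
  refine ⟨Bad, hB1, ?_, ?_⟩
  · refine hB2.trans ?_
    apply div_le_div_of_nonneg_left (by positivity) (by positivity)
    exact pow_le_pow_right₀ hL1 (by omega)
  intro a ha haB s hs u v huv hv
  rw [← hz]
  have hW0 : 0 < (v : ℝ) - u := lt_of_lt_of_le (by positivity) huv
  have huv' : u ≤ v := by
    have : (u : ℝ) ≤ v := by linarith
    exact_mod_cast this
  obtain ⟨G, hG⟩ : ∃ G, G = ((Vz z)⁻¹ / L) ^ n := ⟨_, rfl⟩
  have hV0 : 0 < (Vz z)⁻¹ := inv_pos.2 (Vz_pos z)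
  have hG0 : 0 ≤ G := by
    rw [hG]
    positivity
  have hG1 : G ≤ 1 := by
    rw [hG]
    apply pow_le_one₀ (by positivity)
    rw [div_le_one hL0]
    exact hzV
  obtain ⟨M0, hM0⟩ : ∃ M0, M0 = ((v : ℝ) - u) * dens F a z := ⟨_, rfl⟩
  have hM00 : 0 ≤ M0 := by
    rw [hM0]
    exact mul_nonneg hW0.le (dens_nonneg F a z)
  have hS : mainS F a z x u v = M0 * G := by
    rw [mainS_eq, hM0, hG, ← hLd]
  constructor
  · -- the asymptotic formula
    have hval : ∀ j, ∀ m ∈ Ioc u v, (2 : ℤ) ≤ s j * ((F j).eval m + a j) := by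
      intro j m hm
      have h1 := (hv j m hm).1
      have h2 : (2 : ℝ) ≤ x / L ^ C := by
        rw [le_div_iff₀ (by positivity)]
        exact hxC
      have h3 : (2 : ℝ) ≤ ((s j * ((F j).eval m + a j) : ℤ) : ℝ) := h2.trans h1
      exact_mod_cast h3
    have h1 := hB3 a ha haB 0 (by simp) s hs u v ((pow_le_pow_right₀ hL1 (le_max_left _ _)).trans huv)
      (fun j m hm => ⟨hval j m hm, (hv j m hm).2.2⟩)
    rw [← hz] at h1
    simp only [one_mul] at h1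
    rw [← cnt_eq] at h1
    obtain ⟨A, hA⟩ : ∃ A, A = ∑ m ∈ Ioc u v, ∏ j, md z (F j) (a j) m := ⟨_, rfl⟩
    rw [← hA] at h1
    obtain ⟨R, hR⟩ : ∃ R : ℝ, R = (rough F a z u v : ℝ) := ⟨_, rfl⟩
    have hR0 : 0 ≤ R := by rw [hR]; positivity
    have hAR : |A - G * R| ≤ ε₁ / 4 * (G * R) := by
      have e1 : A = ∑ m ∈ (Ioc u v).filter (fun m => ∀ j, ∀ p : ℕ, p.Prime → p ≤ z → ¬ (p : ℤ) ∣ (F j).eval m + a j),
          ∏ j, md z (F j) (a j) m := by
        rw [hA, sum_filter]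
        apply sum_congr rfl
        intro m _
        split_ifs with h2
        · rfl
        · exact md_zero F a z m h2
      have e2 : G * R = ∑ m ∈ (Ioc u v).filter (fun m => ∀ j, ∀ p : ℕ, p.Prime → p ≤ z → ¬ (p : ℤ) ∣ (F j).eval m + a j),
          G := by
        rw [sum_const, nsmul_eq_mul, mul_comm, hR]
        congr 2
      rw [e2, mul_sum, e1, ← sum_sub_distrib]
      refine (abs_sum_le_sum_abs _ _).trans (sum_le_sum fun m hm => ?_)
      obtain ⟨hm1, hm2⟩ := mem_filter.1 hm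
      rw [md_eq F a z L hL0 m hm2, ← hG]
      have h2 : ∀ j, 1 - θ ≤ L / Real.log |(((F j).eval m + a j : ℤ) : ℝ)| ∧
          L / Real.log |(((F j).eval m + a j : ℤ) : ℝ)| ≤ 1 + θ := by
        intro j
        have h3 : |(((F j).eval m + a j : ℤ) : ℝ)| = ((s j * ((F j).eval m + a j) : ℤ) : ℝ) := by
          have h4 : (0 : ℝ) ≤ ((s j * ((F j).eval m + a j) : ℤ) : ℝ) := by
            have := hval j m hm1
            exact_mod_cast (by omega : (0 : ℤ) ≤ s j * ((F j).eval m + a j))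
          rw [← abs_of_nonneg h4]
          rcases hs j with h5 | h5
          · rw [h5, one_mul]
          · rw [h5, neg_one_mul, Int.cast_neg, abs_neg]
        rw [h3]
        obtain ⟨_, h6, h7⟩ := hlog _ (hv j m hm1).1 (hv j m hm1).2.1
        exact ⟨h6, h7⟩
      obtain ⟨h3, h4⟩ := hθ _ h2
      have h5 : G * ∏ j, (L / Real.log |(((F j).eval m + a j : ℤ) : ℝ)|) - G =
          G * (∏ j, (L / Real.log |(((F j).eval m + a j : ℤ) : ℝ)|) - 1) := by ring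
      rw [h5, abs_mul, abs_of_nonneg hG0]
      have h6 : |∏ j, (L / Real.log |(((F j).eval m + a j : ℤ) : ℝ)|) - 1| ≤ ε₁ / 4 := abs_le.2 ⟨by linarith, by linarith⟩
      calc G * |∏ j, (L / Real.log |(((F j).eval m + a j : ℤ) : ℝ)|) - 1| ≤ G * (ε₁ / 4) :=
            mul_le_mul_of_nonneg_left h6 hG0
        _ = ε₁ / 4 * G := mul_comm _ _
    obtain ⟨e0, he0⟩ : ∃ e0, e0 = ((v : ℝ) - u) / L ^ (U + 2) := ⟨_, rfl⟩
    have he00 : 0 ≤ e0 := by rw [he0]; positivity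
    have hRM : |R - M0| ≤ ε₁ / 4 * M0 + e0 := by
      have h2 := hr z hzz0 a u v huv'
      rw [← hR, ← hM0] at h2
      refine h2.trans ?_
      have h3 : (z : ℝ) ^ K1 ≤ e0 := by
        rw [he0, le_div_iff₀ (by positivity)]
        calc (z : ℝ) ^ K1 * L ^ (U + 2) ≤ (L ^ E) ^ K1 * L ^ (U + 2) :=
              mul_le_mul_of_nonneg_right (pow_le_pow_left₀ (by positivity) hzL _) (by positivity)
          _ = L ^ (E * K1 + U + 2) := by rw [← pow_mul, ← pow_add]; ring_nf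
          _ ≤ (v : ℝ) - u := (pow_le_pow_right₀ hL1 (le_max_right _ _)).trans huv
      linarith
    rw [← he0] at h1
    rw [hS]
    obtain ⟨P, hP⟩ : ∃ P : ℝ, P = (cnt F a u v : ℝ) := ⟨_, rfl⟩
    rw [← hP] at h1 ⊢
    have h3e : 3 * e0 ≤ ((v : ℝ) - u) / L ^ U := by
      rw [he0, pow_add, ← div_div]
      have h2 : 0 ≤ ((v : ℝ) - u) / L ^ U := by positivity
      rw [mul_div_assoc', div_le_iff₀ (by positivity)]
      have h3 : (3 : ℝ) ≤ L ^ 2 := by nlinarith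
      nlinarith
    have hε' : ε₁ * (M0 * G) ≤ ε * (M0 * G) := mul_le_mul_of_nonneg_right hε₁ε (by positivity)
    obtain ⟨q1, q2⟩ := abs_le.1 h1
    obtain ⟨q3, q4⟩ := abs_le.1 hAR
    obtain ⟨q5, q6⟩ := abs_le.1 hRM
    have q7 : G * R ≤ M0 * G + ε₁ / 4 * (M0 * G) + e0 := by
      have : G * R ≤ G * (M0 + (ε₁ / 4 * M0 + e0)) := mul_le_mul_of_nonneg_left (by linarith) hG0
      have h8 : G * e0 ≤ e0 := mul_le_of_le_one_left he00 hG1
      nlinarith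
    have q8 : M0 * G - ε₁ / 4 * (M0 * G) - e0 ≤ G * R := by
      have : G * (M0 - (ε₁ / 4 * M0 + e0)) ≤ G * R := mul_le_mul_of_nonneg_left (by linarith) hG0
      have h8 : G * e0 ≤ e0 := mul_le_of_le_one_left he00 hG1
      nlinarith
    have hS0 : 0 ≤ M0 * G := by positivity
    have q9 : ε₁ / 4 * (G * R) ≤ ε₁ / 2 * (M0 * G) + e0 := by
      have h8 : ε₁ / 4 * (G * R) ≤ ε₁ / 4 * (M0 * G + ε₁ / 4 * (M0 * G) + e0) :=
        mul_le_mul_of_nonneg_left q7 (by positivity)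
      nlinarith [mul_nonneg hε₁0.le hS0, mul_nonneg (mul_nonneg hε₁0.le (sub_nonneg.2 hε₁1)) hS0,
        mul_nonneg (sub_nonneg.2 hε₁1) he00]
    rw [abs_le]
    constructor
    · nlinarith
    · nlinarith
  · -- the main term is not small
    intro hno
    have h1 := dens_ge F hF1 a hno z
    rw [← hz] at hpos
    have h2 : 1 / L ≤ dens F a z := hpos.trans h1
    have h3 : (1 / L) ^ n ≤ G := by
      rw [hG]
      apply pow_le_pow_left₀ (by positivity)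
      apply div_le_div_of_nonneg_right _ hL0.le
      rw [one_le_inv₀ (Vz_pos z)]
      exact Vz_le_one z
    rw [hS, hM0]
    calc ((v : ℝ) - u) / L ^ (n + 1) = ((v : ℝ) - u) * (1 / L) * (1 / L) ^ n := by
          rw [one_div, inv_pow, pow_succ]
          field_simp
      _ ≤ ((v : ℝ) - u) * dens F a z * G := by
          apply mul_le_mul _ h3 (by positivity) (mul_nonneg hW0.le (dens_nonneg F a z))
          exact mul_le_mul_of_nonneg_left h2 hW0.le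

end Pool.Agent.Q156.MW
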