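import Pool.Agent.Q156.AW.A8
import Pool.Agent.H373R2.T7.LamZ2

/-!
Several polynomials at once: the values of all but one of them and their sieve models go into the
weights.
-/

set_option autoImplicit false

namespace Pool.Agent.Q156.MW

open Finset Filter Topology Polynomial
open Pool.Agent.H373R2.T7 (pz Vz lamz mem_pz Vz_inv_small Vz_pos)
open Pool.Agent.TH204.WR (rt evt_log_ge)
open Pool.Agent.Q156.AW (primeSum sieveSum both_signs)

/-- the indicator of the primes -/
noncomputable def pr (F : ℤ[X]) (a m : ℤ) : ℝ := if (F.eval m + a).natAbs.Prime then 1 else 0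

open Classical in
/-- the sieve model -/
noncomputable def md (z : ℕ) (F : ℤ[X]) (a m : ℤ) : ℝ :=
  if (∀ p : ℕ, p.Prime → p ≤ z → ¬ (p : ℤ) ∣ F.eval m + a) then
    (∏ p ∈ (Icc 1 z).filter Nat.Prime, (1 - 1 / (p : ℝ)))⁻¹ / Real.log |((F.eval m + a : ℤ) : ℝ)| else 0

lemma primeSum_eq (F : ℤ[X]) (k : ℤ) (w : ℤ → ℝ) (a b : ℤ) :
    primeSum F k w a b = ∑ m ∈ Ioc a b, w m * pr F k m := by
  unfold primeSum pr
  rw [sum_filter]
  apply sum_congr rfl
  intro m _
  split_ifs <;> simp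

lemma sieveSum_eq (F : ℤ[X]) (k : ℤ) (z : ℕ) (w : ℤ → ℝ) (a b : ℤ) :
    sieveSum F k z w a b = ∑ m ∈ Ioc a b, w m * md z F k m := by
  classical
  unfold sieveSum md
  rw [sum_filter, mul_sum]
  apply sum_congr rfl
  intro m _
  split_ifs
  · ring
  · simp

lemma pr_nonneg (F : ℤ[X]) (a m : ℤ) : 0 ≤ pr F a m := by
  unfold pr
  split_ifs <;> norm_num

lemma pr_le_one (F : ℤ[X]) (a m : ℤ) : pr F a m ≤ 1 := by
  unfold pr
  split_ifs <;> norm_num

lemma inv_log_bd (v : ℤ) : 0 ≤ 1 / Real.log |(v : ℝ)| ∧ 1 / Real.log |(v : ℝ)| ≤ 2 := by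
  rcases lt_or_ge |v| 2 with h | h
  · have h1 : |v| = 0 ∨ |v| = 1 := by
      have := abs_nonneg v
      omega
    have h2 : Real.log |(v : ℝ)| = 0 := by
      rcases h1 with h1 | h1
      · have : |(v : ℝ)| = 0 := by exact_mod_cast h1
        rw [this, Real.log_zero]
      · have : |(v : ℝ)| = 1 := by exact_mod_cast h1
        rw [this, Real.log_one]
    rw [h2]
    norm_num
  · have h1 : (2 : ℝ) ≤ |(v : ℝ)| := by exact_mod_cast h
    have h2 : Real.log 2 ≤ Real.log |(v : ℝ)| := Real.log_le_log (by norm_num) h1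
    have h3 : (1 : ℝ) / 2 < Real.log 2 := by
      have := Real.log_two_gt_d9
      linarith
    have h4 : 0 < Real.log |(v : ℝ)| := by linarith
    refine ⟨by positivity, ?_⟩
    rw [div_le_iff₀ h4]
    linarith

lemma md_bd (z : ℕ) (F : ℤ[X]) (a m : ℤ) (L : ℝ) (h : (Vz z)⁻¹ ≤ L) : 0 ≤ md z F a m ∧ md z F a m ≤ 2 * L := by
  have h0 : 0 < Vz z := Vz_pos z
  have h1 : 0 < (Vz z)⁻¹ := inv_pos.2 h0
  obtain ⟨h2, h3⟩ := inv_log_bd (F.eval m + a)
  have e : (∏ p ∈ (Icc 1 z).filter Nat.Prime, (1 - 1 / (p : ℝ)))⁻¹ = (Vz z)⁻¹ := rfl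
  unfold md
  rw [e]
  split_ifs
  · rw [div_eq_mul_one_div]
    exact ⟨mul_nonneg h1.le h2, by nlinarith⟩
  · exact ⟨le_rfl, by linarith⟩

/-- counting by fibres -/
lemma count_fiber {n : ℕ} (x : ℕ) (t : Fin n) (Bd : (Fin n → ℤ) → Finset ℤ)
    (hBd : ∀ a b : Fin n → ℤ, (∀ l, l ≠ t → a l = b l) → Bd a = Bd b) (M : ℕ) (hM : ∀ a, #(Bd a) ≤ M) :
    #((Fintype.piFinset (fun _ : Fin n => Icc (-(x : ℤ)) x)).filter (fun a => a t ∈ Bd a)) ≤
      M * (2 * x + 1) ^ (n - 1) := by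
  classical
  set S := (Fintype.piFinset (fun _ : Fin n => Icc (-(x : ℤ)) x)).filter (fun a => a t ∈ Bd a) with hS
  have h1 : #S ≤ M * #(S.image (fun a => Function.update a t 0)) := by
    apply card_le_mul_card_image
    intro b hb
    obtain ⟨a₀, ha₀, rfl⟩ := mem_image.1 hb
    refine le_trans ?_ (hM a₀)
    apply card_le_card_of_injOn (fun a => a t)
    · intro a ha
      obtain ⟨ha1, ha2⟩ := mem_filter.1 (mem_coe.1 ha)
      have ha3 := (mem_filter.1 ha1).2
      have h2 : ∀ l, l ≠ t → a l = a₀ l := by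
        intro l hl
        have := congrFun ha2 l
        simpa [Function.update_of_ne hl] using this
      rw [hBd a a₀ h2] at ha3
      exact ha3
    · intro a ha b hb hab
      obtain ⟨ha1, ha2⟩ := mem_filter.1 (mem_coe.1 ha)
      obtain ⟨hb1, hb2⟩ := mem_filter.1 (mem_coe.1 hb)
      funext l
      by_cases hl : l = t
      · rw [hl]
        exact hab
      · have := congrFun (ha2.trans hb2.symm) l
        simpa [Function.update_of_ne hl] using this
  refine h1.trans (Nat.mul_le_mul_left _ ?_)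
  have h2 : S.image (fun a => Function.update a t 0) ⊆
      Fintype.piFinset (fun l : Fin n => if l = t then ({0} : Finset ℤ) else Icc (-(x : ℤ)) x) := by
    intro b hb
    obtain ⟨a, ha, rfl⟩ := mem_image.1 hb
    have ha1 := Fintype.mem_piFinset.1 (mem_filter.1 ha).1
    rw [Fintype.mem_piFinset]
    intro l
    by_cases hl : l = t
    · subst hl
      simp
    · simp only [Function.update_of_ne hl, hl, if_false]
      exact ha1 l
  refine (card_le_card h2).trans (le_of_eq ?_)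
  rw [Fintype.card_piFinset, ← mul_prod_erase univ _ (mem_univ t)]
  simp only [if_true, card_singleton, one_mul]
  have h3 : ∀ l ∈ univ.erase t, #(if l = t then ({0} : Finset ℤ) else Icc (-(x : ℤ)) x) = 2 * x + 1 := by
    intro l hl
    rw [if_neg (ne_of_mem_erase hl), Int.card_Icc]
    omega
  rw [prod_congr rfl h3, prod_const, card_erase_of_mem (mem_univ t), card_univ, Fintype.card_fin]

/-- the weights for the polynomial number `t` -/
noncomputable def wt {n : ℕ} (F : Fin n → ℤ[X]) (z : ℕ) (L : ℝ) (w : ℕ → ℤ → ℝ) (t : Fin n) (a : Fin n → ℤ) (i : ℕ)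
    (m : ℤ) : ℝ :=
  w i m * (∏ l ∈ univ.filter (fun l => l < t), pr (F l) (a l) m) *
    ∏ l ∈ univ.filter (fun l => t < l), (md z (F l) (a l) m / (2 * L))

lemma wt_congr {n : ℕ} (F : Fin n → ℤ[X]) (z : ℕ) (L : ℝ) (w : ℕ → ℤ → ℝ) (t : Fin n) (a b : Fin n → ℤ)
    (h : ∀ l, l ≠ t → a l = b l) : wt F z L w t a = wt F z L w t b := by
  funext i m
  unfold wt
  congr 1
  · congr 1
    apply prod_congr rfl
    intro l hl
    rw [h l (ne_of_lt (mem_filter.1 hl).2)]
  · apply prod_congr rfl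
    intro l hl
    rw [h l (ne_of_gt (mem_filter.1 hl).2)]

lemma wt_bd {n : ℕ} (F : Fin n → ℤ[X]) (z : ℕ) (L : ℝ) (hL : 0 < L) (hz : (Vz z)⁻¹ ≤ L) (w : ℕ → ℤ → ℝ)
    (hw : ∀ i m, |w i m| ≤ 1) (t : Fin n) (a : Fin n → ℤ) (i : ℕ) (m : ℤ) : |wt F z L w t a i m| ≤ 1 := by
  unfold wt
  rw [abs_mul, abs_mul]
  have h1 : |∏ l ∈ univ.filter (fun l => l < t), pr (F l) (a l) m| ≤ 1 := by
    rw [abs_of_nonneg (prod_nonneg fun l _ => pr_nonneg _ _ _)]
    exact prod_le_one (fun l _ => pr_nonneg _ _ _) (fun l _ => pr_le_one _ _ _)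
  have h2 : |∏ l ∈ univ.filter (fun l => t < l), (md z (F l) (a l) m / (2 * L))| ≤ 1 := by
    have h3 : ∀ l, 0 ≤ md z (F l) (a l) m / (2 * L) := fun l =>
      div_nonneg (md_bd z (F l) (a l) m L hz).1 (by positivity)
    rw [abs_of_nonneg (prod_nonneg fun l _ => h3 l)]
    refine prod_le_one (fun l _ => h3 l) (fun l _ => ?_)
    rw [div_le_one (by positivity)]
    exact (md_bd z (F l) (a l) m L hz).2
  have h3 := hw i m
  have a1 := abs_nonneg (w i m)
  have a2 := abs_nonneg (∏ l ∈ univ.filter (fun l => l < t), pr (F l) (a l) m)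
  have a3 := abs_nonneg (∏ l ∈ univ.filter (fun l => t < l), (md z (F l) (a l) m / (2 * L)))
  have h4 : |w i m| * |∏ l ∈ univ.filter (fun l => l < t), pr (F l) (a l) m| ≤ 1 := by nlinarith
  have a4 := mul_nonneg a1 a2
  nlinarith

/-- the telescoping identity -/
lemma telescope {n : ℕ} (F : Fin n → ℤ[X]) (z : ℕ) (L : ℝ) (hL : 0 < L) (w : ℕ → ℤ → ℝ) (a : Fin n → ℤ) (i : ℕ)
    (u v : ℤ) :
    ∑ m ∈ Ioc u v, w i m * ∏ j, pr (F j) (a j) m - ∑ m ∈ Ioc u v, w i m * ∏ j, md z (F j) (a j) m =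
      ∑ t, (2 * L) ^ #(univ.filter (fun l : Fin n => t < l)) *
        (primeSum (F t) (a t) (wt F z L w t a i) u v - sieveSum (F t) (a t) z (wt F z L w t a i) u v) := by
  have h1 : ∀ m : ℤ, ∏ j, pr (F j) (a j) m - ∏ j, md z (F j) (a j) m =
      ∑ t, (pr (F t) (a t) m - md z (F t) (a t) m) * (∏ l ∈ univ.filter (fun l => l < t), pr (F l) (a l) m) *
        ∏ l ∈ univ.filter (fun l => t < l), md z (F l) (a l) m := by
    intro m
    have h2 := prod_sub_ordered (univ : Finset (Fin n)) (fun j => md z (F j) (a j) m)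
      (fun j => md z (F j) (a j) m - pr (F j) (a j) m)
    simp only [sub_sub_cancel] at h2
    rw [h2, sub_sub_cancel_left, ← sum_neg_distrib]
    apply sum_congr rfl
    intro t _
    ring
  rw [← sum_sub_distrib]
  have h3 : ∀ m ∈ Ioc u v, w i m * ∏ j, pr (F j) (a j) m - w i m * ∏ j, md z (F j) (a j) m =
      ∑ t, (2 * L) ^ #(univ.filter (fun l : Fin n => t < l)) * (wt F z L w t a i m * pr (F t) (a t) m -
        wt F z L w t a i m * md z (F t) (a t) m) := by
    intro m _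
    rw [← mul_sub, h1 m, mul_sum]
    apply sum_congr rfl
    intro t _
    unfold wt
    rw [prod_div_distrib, prod_const]
    have h4 : (2 * L) ^ #(univ.filter (fun l : Fin n => t < l)) ≠ 0 := by positivity
    field_simp
  rw [sum_congr rfl h3, sum_comm]
  apply sum_congr rfl
  intro t _
  rw [primeSum_eq, sieveSum_eq, ← sum_sub_distrib, mul_sum]

end Pool.Agent.Q156.MW
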