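import Pool.Agent.Q156.MW.M1

/-!
Several polynomials at once.
-/

set_option autoImplicit false

namespace Pool.Agent.Q156.MW

open Finset Filter Topology Polynomial
open Pool.Agent.H373R2.T7 (pz Vz lamz mem_pz Vz_inv_small Vz_pos)
open Pool.Agent.TH204.WR (rt evt_log_ge)
open Pool.Agent.Q156.AW (primeSum sieveSum both_signs)

/-- **Simultaneous primes for almost all tuples of constant terms, arbitrary weights.** -/
theorem tuples (n : ℕ) (k : Fin n → ℕ) (hk : ∀ j, 1 ≤ k j) (F : Fin n → ℤ[X]) (hF : ∀ j, (F j).natDegree = k j + 1)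
    (U C K : ℕ) :
    ∃ B E0 : ℕ, ∀ E : ℕ, E0 ≤ E → ∃ X0 : ℕ, ∀ x : ℕ, X0 ≤ x →
    ∀ w : ℕ → ℤ → ℝ, (∀ i m, |w i m| ≤ 1) →
    ∃ Bad ⊆ Fintype.piFinset (fun _ : Fin n => Icc (-(x : ℤ)) x), (#Bad : ℝ) ≤ (x : ℝ) ^ n / Real.log x ^ U ∧
    ∀ a ∈ Fintype.piFinset (fun _ : Fin n => Icc (-(x : ℤ)) x), a ∉ Bad →
    ∀ i : ℕ, (i : ℝ) ≤ Real.log x ^ K → ∀ s : Fin n → ℤ, (∀ j, s j = 1 ∨ s j = -1) →
    ∀ u v : ℤ, Real.log x ^ B ≤ (v : ℝ) - u →
      (∀ j, ∀ m ∈ Ioc u v, 2 ≤ s j * ((F j).eval m + a j) ∧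
        ((s j * ((F j).eval m + a j) : ℤ) : ℝ) ≤ ((v : ℝ) - u) * (rt (k j) x ^ (k j) * Real.log x ^ C)) →
      |∑ m ∈ Ioc u v, w i m * ∏ j, pr (F j) (a j) m -
        ∑ m ∈ Ioc u v, w i m * ∏ j, md ⌊Real.log x ^ E⌋₊ (F j) (a j) m| ≤ ((v : ℝ) - u) / Real.log x ^ U := by
  classical
  obtain ⟨U', hU'⟩ : ∃ U', U' = U + 2 * n + 2 := ⟨_, rfl⟩
  choose Bj Ej hj using fun j => both_signs (k j) (hk j) (F j) (hF j) U' C K
  refine ⟨univ.sup Bj, univ.sup Ej, fun E hE => ?_⟩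
  have hEj : ∀ j, Ej j ≤ E := fun j => (le_sup (mem_univ j)).trans hE
  choose Xj hX using fun j => hj j E (hEj j)
  obtain ⟨X1, h1⟩ := Vz_inv_small E
  obtain ⟨X2, h2⟩ := eventually_atTop.1 (evt_log_ge (4 + n + 3 ^ n * n))
  refine ⟨max (univ.sup Xj) (max (max X1 X2) 1), fun x hx w hw => ?_⟩
  have hx1 : X1 ≤ x := ((le_max_left _ _).trans (le_max_left _ _)).trans ((le_max_right _ _).trans hx)
  have hx2 : X2 ≤ x := ((le_max_right _ _).trans (le_max_left _ _)).trans ((le_max_right _ _).trans hx)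
  have hx3 : 1 ≤ x := (le_max_right _ _).trans ((le_max_right _ _).trans hx)
  have hxj : ∀ j, Xj j ≤ x := fun j => (le_sup (mem_univ j)).trans ((le_max_left _ _).trans hx)
  have hL := h2 x hx2
  obtain ⟨L, hLd⟩ : ∃ L, L = Real.log x := ⟨_, rfl⟩
  rw [← hLd] at hL
  have hnr : (0 : ℝ) ≤ n := Nat.cast_nonneg _
  have h3n : (0 : ℝ) ≤ 3 ^ n * n := by positivity
  have hL4 : 4 ≤ L := by linarith
  have hLn : (n : ℝ) ≤ L := by linarith
  have hL3n : 3 ^ n * (n : ℝ) ≤ L := by linarith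
  have hL0 : 0 < L := by linarith
  have hL1 : 1 ≤ L := by linarith
  have hxr : (1 : ℝ) ≤ x := by exact_mod_cast hx3
  obtain ⟨z, hz⟩ : ∃ z, z = ⌊L ^ E⌋₊ := ⟨_, rfl⟩
  have hz1 : 1 ≤ z := by
    rw [hz]
    apply Nat.le_floor
    rw [Nat.cast_one]
    exact one_le_pow₀ hL1
  have hzV : (Vz z)⁻¹ ≤ L := by
    rw [hLd]
    apply h1 x hx1 z hz1
    rw [hz, hLd]
    exact Nat.floor_le (by rw [← hLd]; positivity)
  have H : ∀ (t : Fin n) (w' : ℕ → ℤ → ℝ), ∃ Bad : Finset ℤ, (∀ i m, |w' i m| ≤ 1) → Bad ⊆ Icc (-(x : ℤ)) x ∧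
      (#Bad : ℝ) ≤ x / L ^ U' ∧ ∀ b ∈ Icc (-(x : ℤ)) x, b ∉ Bad → ∀ i : ℕ, (i : ℝ) ≤ L ^ K →
      ∀ s : ℤ, (s = 1 ∨ s = -1) → ∀ u v : ℤ, L ^ Bj t ≤ (v : ℝ) - u →
      (∀ m ∈ Ioc u v, 2 ≤ s * ((F t).eval m + b) ∧
        ((s * ((F t).eval m + b) : ℤ) : ℝ) ≤ ((v : ℝ) - u) * (rt (k t) x ^ (k t) * L ^ C)) →
      |primeSum (F t) b (w' i) u v - sieveSum (F t) b z (w' i) u v| ≤ ((v : ℝ) - u) / L ^ U' := by
    intro t w'
    by_cases hw' : ∀ i m, |w' i m| ≤ 1
    · obtain ⟨Bad, g1, g2, g3⟩ := hX t x (hxj t) w' hw'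
      refine ⟨Bad, fun _ => ⟨g1, ?_, ?_⟩⟩
      · rw [hLd]
        exact g2
      · intro b hb hbB i hi s hs u v huv hv
        rw [hLd] at hi huv hv hz ⊢
        rw [hz]
        exact g3 b hb hbB i hi s hs u v huv hv
    · exact ⟨∅, fun h => absurd h hw'⟩
  choose Bd hBd using H
  have hwt : ∀ t a i m, |wt F z L w t a i m| ≤ 1 := fun t a i m => wt_bd F z L hL0 hzV w hw t a i m
  obtain ⟨Bx, hBx⟩ : ∃ Bx, Bx = Fintype.piFinset (fun _ : Fin n => Icc (-(x : ℤ)) x) := ⟨_, rfl⟩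
  rw [← hLd, ← hBx]
  refine ⟨Bx.filter (fun a => ∃ t, a t ∈ Bd t (wt F z L w t a)), filter_subset _ _, ?_, ?_⟩
  · -- the size of the exceptional set
    have e1 : Bx.filter (fun a => ∃ t, a t ∈ Bd t (wt F z L w t a)) ⊆
        univ.biUnion (fun t => Bx.filter (fun a => a t ∈ Bd t (wt F z L w t a))) := by
      intro a ha
      obtain ⟨ha1, t, ht⟩ := mem_filter.1 ha
      exact mem_biUnion.2 ⟨t, mem_univ t, mem_filter.2 ⟨ha1, ht⟩⟩
    have e2 : (#(Bx.filter (fun a => ∃ t, a t ∈ Bd t (wt F z L w t a))) : ℝ) ≤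
        ∑ t, (#(Bx.filter (fun a => a t ∈ Bd t (wt F z L w t a))) : ℝ) := by
      exact_mod_cast (card_le_card e1).trans card_biUnion_le
    have e3 : ∀ t ∈ (univ : Finset (Fin n)), (#(Bx.filter (fun a => a t ∈ Bd t (wt F z L w t a))) : ℝ) ≤
        x / L ^ U' * (3 * x) ^ (n - 1) := by
      intro t _
      have f1 := count_fiber x t (fun a => Bd t (wt F z L w t a))
        (fun a b hab => by rw [wt_congr F z L w t a b hab]) ⌊(x : ℝ) / L ^ U'⌋₊
        (fun a => Nat.le_floor (hBd t (wt F z L w t a) (hwt t a)).2.1)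
      rw [← hBx] at f1
      have f2 : (#(Bx.filter (fun a => a t ∈ Bd t (wt F z L w t a))) : ℝ) ≤
          (⌊(x : ℝ) / L ^ U'⌋₊ : ℝ) * (2 * x + 1) ^ (n - 1) := by exact_mod_cast f1
      refine f2.trans (mul_le_mul (Nat.floor_le (by positivity)) ?_ (by positivity) (by positivity))
      exact pow_le_pow_left₀ (by positivity) (by linarith) _
    refine e2.trans ((sum_le_sum e3).trans ?_)
    rw [sum_const, card_univ, Fintype.card_fin, nsmul_eq_mul]
    rcases Nat.eq_zero_or_pos n with hn | hn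
    · subst hn
      simp only [Nat.cast_zero, zero_mul]
      positivity
    · obtain ⟨n', rfl⟩ : ∃ n', n = n' + 1 := ⟨n - 1, by omega⟩
      rw [Nat.add_sub_cancel]
      have f3 : (((n' + 1 : ℕ) : ℝ)) * ((x : ℝ) / L ^ U' * (3 * x) ^ n') =
          (3 ^ n' * ((n' + 1 : ℕ) : ℝ)) * ((x : ℝ) ^ (n' + 1) / L ^ U') := by
        rw [mul_pow, pow_succ]
        ring
      have f4 : (3 : ℝ) ^ n' * ((n' + 1 : ℕ) : ℝ) ≤ L := by
        refine le_trans (mul_le_mul_of_nonneg_right ?_ (Nat.cast_nonneg _)) hL3n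
        exact pow_le_pow_right₀ (by norm_num) (by omega)
      rw [f3]
      calc (3 ^ n' * ((n' + 1 : ℕ) : ℝ)) * ((x : ℝ) ^ (n' + 1) / L ^ U') ≤ L * ((x : ℝ) ^ (n' + 1) / L ^ U') :=
            mul_le_mul_of_nonneg_right f4 (by positivity)
        _ ≤ L ^ (2 * (n' + 1) + 2) * ((x : ℝ) ^ (n' + 1) / L ^ U') := by
            apply mul_le_mul_of_nonneg_right _ (by positivity)
            exact le_self_pow₀ hL1 (by omega)
        _ = (x : ℝ) ^ (n' + 1) / L ^ U := by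
            rw [hU', show U + 2 * (n' + 1) + 2 = U + (2 * (n' + 1) + 2) by ring, pow_add L U]
            have a1 : L ^ U ≠ 0 := by positivity
            have a2 : L ^ (2 * (n' + 1) + 2) ≠ 0 := by positivity
            field_simp
  · intro a ha haB i hi s hs u v huv hv
    have huv0 : 0 ≤ (v : ℝ) - u := le_trans (by positivity) huv
    rw [← hz, telescope F z L hL0 w a i u v]
    have e1 : ∀ t ∈ (univ : Finset (Fin n)), |(2 * L) ^ #(univ.filter (fun l : Fin n => t < l)) *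
        (primeSum (F t) (a t) (wt F z L w t a i) u v - sieveSum (F t) (a t) z (wt F z L w t a i) u v)| ≤
        (2 * L) ^ n * (((v : ℝ) - u) / L ^ U') := by
      intro t _
      rw [abs_mul, abs_of_nonneg (by positivity)]
      have f1 : #(univ.filter (fun l : Fin n => t < l)) ≤ n := by
        refine (card_filter_le _ _).trans ?_
        rw [card_univ, Fintype.card_fin]
      have f2 : (2 * L) ^ #(univ.filter (fun l : Fin n => t < l)) ≤ (2 * L) ^ n :=
        pow_le_pow_right₀ (by linarith) f1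
      refine mul_le_mul f2 ?_ (abs_nonneg _) (by positivity)
      have hb : a t ∈ Icc (-(x : ℤ)) x := by
        rw [hBx] at ha
        exact Fintype.mem_piFinset.1 ha t
      have hbB : a t ∉ Bd t (wt F z L w t a) := by
        intro h
        exact haB (mem_filter.2 ⟨ha, t, h⟩)
      refine (hBd t (wt F z L w t a) (hwt t a)).2.2 (a t) hb hbB i hi (s t) (hs t) u v ?_ (hv t)
      refine le_trans (pow_le_pow_right₀ hL1 ?_) huv
      exact le_sup (mem_univ t)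
    refine (abs_sum_le_sum_abs _ _).trans ((sum_le_sum e1).trans ?_)
    rw [sum_const, card_univ, Fintype.card_fin, nsmul_eq_mul]
    have f3 : (n : ℝ) * (2 * L) ^ n ≤ L ^ (2 * n + 2) := by
      calc (n : ℝ) * (2 * L) ^ n ≤ L * (L * L) ^ n := by
            apply mul_le_mul hLn _ (by positivity) hL0.le
            exact pow_le_pow_left₀ (by positivity) (by nlinarith) _
        _ = L ^ (2 * n + 1) := by
            rw [← pow_two, ← pow_mul, pow_succ]
            ring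
        _ ≤ L ^ (2 * n + 2) := pow_le_pow_right₀ hL1 (by omega)
    calc (n : ℝ) * ((2 * L) ^ n * (((v : ℝ) - u) / L ^ U')) = ((n : ℝ) * (2 * L) ^ n) * (((v : ℝ) - u) / L ^ U') := by ring
      _ ≤ L ^ (2 * n + 2) * (((v : ℝ) - u) / L ^ U') := mul_le_mul_of_nonneg_right f3 (by positivity)
      _ = ((v : ℝ) - u) / L ^ U := by
          rw [hU', show U + 2 * n + 2 = U + (2 * n + 2) by ring, pow_add L U]
          have a1 : L ^ U ≠ 0 := by positivity
          have a2 : L ^ (2 * n + 2) ≠ 0 := by positivity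
          field_simp

end Pool.Agent.Q156.MW
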