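import Pool.Agent.Q156.MW.M2
import Pool.Agent.H373R2.T7.Fund

/-!
Local counts for several polynomials.
-/

set_option autoImplicit false

namespace Pool.Agent.Q156.MW

open Finset Filter Topology Polynomial
open Pool.Agent.H373R2.T7 (pz Vz mem_pz nuB PerB sys_fund nuB_le)

open scoped Classical in
/-- the number of the classes modulo `p` on which some value is divisible by `p` -/
noncomputable def nu {n : ℕ} (F : Fin n → ℤ[X]) (a : Fin n → ℤ) (p : ℕ) : ℕ :=
  ((range p).filter (fun r : ℕ => ∃ j, (p : ℤ) ∣ (F j).eval (r : ℤ) + a j)).card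

/-- the condition in a window -/
def QW {n : ℕ} (F : Fin n → ℤ[X]) (a : Fin n → ℤ) (u : ℤ) (p r : ℕ) : Prop :=
  ∃ j, (p : ℤ) ∣ (F j).eval (u + r) + a j

lemma dvd_congr (P : ℤ[X]) (b p m m' : ℤ) (h : p ∣ m - m') : p ∣ P.eval m + b ↔ p ∣ P.eval m' + b := by
  have h1 : p ∣ P.eval m - P.eval m' := h.trans (sub_dvd_eval_sub m m' P)
  have h2 : P.eval m + b = (P.eval m - P.eval m') + (P.eval m' + b) := by ring
  rw [h2]
  exact dvd_add_right h1

lemma QW_per {n : ℕ} (F : Fin n → ℤ[X]) (a : Fin n → ℤ) (u : ℤ) (p r : ℕ) : QW F a u p r ↔ QW F a u p (r % p) := by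
  unfold QW
  apply exists_congr
  intro j
  apply dvd_congr
  have h1 : ((r : ℤ)) - ((r % p : ℕ) : ℤ) = p * (r / p : ℕ) := by
    have := Nat.div_add_mod r p
    push_cast
    have h2 : ((r : ℤ)) = p * (r / p) + r % p := (Int.mul_ediv_add_emod r p).symm
    linarith
  have h2 : u + (r : ℤ) - (u + ((r % p : ℕ) : ℤ)) = p * (r / p : ℕ) := by linarith
  rw [h2]
  exact Dvd.intro _ rfl

lemma nuB_QW {n : ℕ} (F : Fin n → ℤ[X]) (a : Fin n → ℤ) (u : ℤ) (p : ℕ) (hp : 0 < p) :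
    nuB (QW F a u) p = nu F a p := by
  classical
  obtain ⟨u', hu'⟩ : ∃ u' : ℕ, (u' : ℤ) = u % p := ⟨(u % p).toNat, by
    rw [Int.toNat_of_nonneg]
    exact Int.emod_nonneg _ (by omega)⟩
  obtain ⟨P, hP⟩ : ∃ P : ℕ → Prop, P = fun r : ℕ => ∃ j, (p : ℤ) ∣ (F j).eval (r : ℤ) + a j := ⟨_, rfl⟩
  have h1 : ∀ r : ℕ, QW F a u p r ↔ P (u' + r) := by
    intro r
    rw [hP]
    unfold QW
    apply exists_congr
    intro j
    apply dvd_congr
    have h2 := Int.mul_ediv_add_emod u p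
    have h3 : u + (r : ℤ) - ((u' + r : ℕ) : ℤ) = p * (u / p) := by
      push_cast
      rw [hu']
      linarith
    rw [h3]
    exact Dvd.intro _ rfl
  have hper : Function.Periodic P p := by
    intro r
    apply propext
    rw [hP]
    apply exists_congr
    intro j
    apply dvd_congr
    push_cast
    simp
  have h2 := Nat.filter_Ico_card_eq_of_periodic u' p P hper
  rw [Nat.count_eq_card_filter_range] at h2
  have h3 : nu F a p = ((range p).filter P).card := by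
    unfold nu
    rw [hP]
    congr 1
    ext x
    simp only [mem_filter]
  rw [h3, ← h2]
  unfold nuB
  apply card_bij (fun r _ => u' + r)
  · intro r hr
    obtain ⟨hr1, hr2⟩ := mem_filter.1 hr
    rw [mem_range] at hr1
    exact mem_filter.2 ⟨mem_Ico.2 ⟨by omega, by omega⟩, (h1 r).1 hr2⟩
  · intro r _ r' _ h
    omega
  · intro y hy
    obtain ⟨hy1, hy2⟩ := mem_filter.1 hy
    rw [mem_Ico] at hy1
    refine ⟨y - u', mem_filter.2 ⟨mem_range.2 (by omega), ?_⟩, by omega⟩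
    rw [h1, Nat.add_sub_cancel' hy1.1]
    exact hy2

lemma roots_le (P : ℤ[X]) (d : ℕ) (hd : 1 ≤ d) (hP : P.natDegree = d) (b : ℤ) (p : ℕ) (hp : p.Prime)
    [DecidablePred fun r : ℕ => (p : ℤ) ∣ P.eval (r : ℤ) + b] :
    ((range p).filter (fun r : ℕ => (p : ℤ) ∣ P.eval (r : ℤ) + b)).card ≤ d + P.leadingCoeff.natAbs := by
  have hP0 : P ≠ 0 := by
    rintro rfl
    rw [natDegree_zero] at hP
    omega
  by_cases hpl : (p : ℤ) ∣ P.leadingCoeff
  · have h1 : p ∣ P.leadingCoeff.natAbs := Int.natCast_dvd.1 hpl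
    have h2 : p ≤ P.leadingCoeff.natAbs := by
      apply Nat.le_of_dvd _ h1
      rw [Nat.pos_iff_ne_zero]
      intro h
      rw [Int.natAbs_eq_zero, leadingCoeff_eq_zero] at h
      exact hP0 h
    have h3 := card_filter_le (range p) (fun r : ℕ => (p : ℤ) ∣ P.eval (r : ℤ) + b)
    rw [card_range] at h3
    omega
  · haveI : Fact p.Prime := ⟨hp⟩
    set G : (ZMod p)[X] := (P + C b).map (Int.castRingHom (ZMod p)) with hG
    have hcoef : G.coeff d ≠ 0 := by
      rw [hG, coeff_map, coeff_add, coeff_C, if_neg (by omega), add_zero, ← hP]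
      intro h
      apply hpl
      rw [← leadingCoeff] at h
      exact (ZMod.intCast_zmod_eq_zero_iff_dvd _ _).1 h
    have hG0 : G ≠ 0 := by
      intro h
      rw [h, coeff_zero] at hcoef
      exact hcoef rfl
    have hdeg : G.natDegree ≤ d := by
      refine natDegree_map_le.trans ((natDegree_add_le _ _).trans ?_)
      rw [natDegree_C, hP]
      simp
    have h1 : ((range p).filter (fun r : ℕ => (p : ℤ) ∣ P.eval (r : ℤ) + b)).card ≤ #G.roots.toFinset := by
      apply card_le_card_of_injOn (fun r : ℕ => (r : ZMod p))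
      · intro r hr
        obtain ⟨_, hr2⟩ := mem_filter.1 (mem_coe.1 hr)
        rw [mem_coe, Multiset.mem_toFinset, mem_roots hG0, IsRoot.def, hG, eval_map, eval₂_add, eval₂_C]
        have h2 : ((P.eval (r : ℤ) + b : ℤ) : ZMod p) = 0 := (ZMod.intCast_zmod_eq_zero_iff_dvd _ _).2 hr2
        rw [Int.cast_add] at h2
        rw [← h2]
        congr 1
        have := eval₂_at_apply (Int.castRingHom (ZMod p)) (p := P) (r : ℤ)
        simpa using this
      · intro r hr r' hr' h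
        have hr1 := mem_range.1 (mem_filter.1 (mem_coe.1 hr)).1
        have hr1' := mem_range.1 (mem_filter.1 (mem_coe.1 hr')).1
        have h2 := (ZMod.natCast_eq_natCast_iff' r r' p).1 h
        rwa [Nat.mod_eq_of_lt hr1, Nat.mod_eq_of_lt hr1'] at h2
    have h2 : #G.roots.toFinset ≤ d := (Multiset.toFinset_card_le _).trans ((card_roots' G).trans hdeg)
    omega

/-- the bound for the local counts -/
noncomputable def cF {n : ℕ} (F : Fin n → ℤ[X]) : ℕ := ∑ j, ((F j).natDegree + (F j).leadingCoeff.natAbs) + 1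

lemma nu_le {n : ℕ} (F : Fin n → ℤ[X]) (hF : ∀ j, 1 ≤ (F j).natDegree) (a : Fin n → ℤ) (p : ℕ) (hp : p.Prime) :
    nu F a p ≤ cF F := by
  classical
  unfold nu cF
  have h1 : (range p).filter (fun r : ℕ => ∃ j, (p : ℤ) ∣ (F j).eval (r : ℤ) + a j) ⊆
      univ.biUnion (fun j => (range p).filter (fun r : ℕ => (p : ℤ) ∣ (F j).eval (r : ℤ) + a j)) := by
    intro r hr
    obtain ⟨hr1, j, hj⟩ := mem_filter.1 hr
    exact mem_biUnion.2 ⟨j, mem_univ j, mem_filter.2 ⟨hr1, hj⟩⟩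
  refine (card_le_card h1).trans (card_biUnion_le.trans ?_)
  refine (sum_le_sum fun j _ => roots_le (F j) _ (hF j) rfl (a j) p hp).trans (by omega)

lemma perB_QW {n : ℕ} (F : Fin n → ℤ[X]) (hF : ∀ j, 1 ≤ (F j).natDegree) (a : Fin n → ℤ) (u : ℤ) :
    PerB (QW F a u) (cF F) := by
  refine ⟨fun p r => QW_per F a u p r, fun p hp => ?_⟩
  rw [nuB_QW F a u p hp.pos]
  exact nu_le F hF a p hp

/-- the truncated product of the local densities -/
noncomputable def dens {n : ℕ} (F : Fin n → ℤ[X]) (a : Fin n → ℤ) (z : ℕ) : ℝ :=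
  ∏ p ∈ (Icc 1 z).filter Nat.Prime, (1 - (nu F a p : ℝ) / p)

open scoped Classical in
/-- the number of the `m` in a window for which no value has a prime factor `≤ z` -/
noncomputable def rough {n : ℕ} (F : Fin n → ℤ[X]) (a : Fin n → ℤ) (z : ℕ) (u v : ℤ) : ℕ :=
  ((Ioc u v).filter (fun m => ∀ j, ∀ p : ℕ, p.Prime → p ≤ z → ¬ (p : ℤ) ∣ (F j).eval m + a j)).card

/-- the fundamental lemma in windows -/
theorem rough_fund {n : ℕ} (F : Fin n → ℤ[X]) (hF : ∀ j, 1 ≤ (F j).natDegree) (ε : ℝ) (hε : 0 < ε) :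
    ∃ K z0 : ℕ, 1 ≤ K ∧ ∀ z : ℕ, z0 ≤ z → ∀ (a : Fin n → ℤ) (u v : ℤ), u ≤ v →
      |(rough F a z u v : ℝ) - ((v : ℝ) - u) * dens F a z| ≤ ε * (((v : ℝ) - u) * dens F a z) + (z : ℝ) ^ K := by
  classical
  obtain ⟨K, z0, hK, h⟩ := sys_fund (cF F) (by unfold cF; omega) ε hε
  refine ⟨K, max z0 1, hK, fun z hz a u v huv => ?_⟩
  have hz0 : z0 ≤ z := (le_max_left _ _).trans hz
  have hz1 : 1 ≤ z := (le_max_right _ _).trans hz
  obtain ⟨N, hN⟩ : ∃ N : ℕ, (N : ℤ) = v - u := ⟨(v - u).toNat, Int.toNat_of_nonneg (by omega)⟩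
  have h1 := h (z ^ K) z hz0 le_rfl (QW F a u) (perB_QW F hF a u) N
  have e1 : ((Icc 1 N).filter (fun r : ℕ => ∀ p ∈ pz z, ¬ QW F a u p r)).card = rough F a z u v := by
    unfold rough
    apply card_bij (fun (r : ℕ) _ => u + (r : ℤ))
    · intro r hr
      obtain ⟨hr1, hr2⟩ := mem_filter.1 hr
      rw [mem_Icc] at hr1
      refine mem_filter.2 ⟨mem_Ioc.2 ⟨by omega, by omega⟩, ?_⟩
      intro j p hp hpz hd
      exact hr2 p (mem_pz.2 ⟨hpz, hp⟩) ⟨j, hd⟩
    · intro r _ r' _ hrr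
      omega
    · intro m hm
      obtain ⟨hm1, hm2⟩ := mem_filter.1 hm
      rw [mem_Ioc] at hm1
      refine ⟨(m - u).toNat, mem_filter.2 ⟨mem_Icc.2 ⟨by omega, by omega⟩, ?_⟩, by omega⟩
      rintro p hp ⟨j, hj⟩
      obtain ⟨hp1, hp2⟩ := mem_pz.1 hp
      apply hm2 j p hp2 hp1
      rw [Int.toNat_of_nonneg (by omega)] at hj
      rwa [add_sub_cancel] at hj
  have e2 : ∏ p ∈ pz z, (1 - (nuB (QW F a u) p : ℝ) / p) = dens F a z := by
    unfold dens
    apply prod_congr rfl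
    intro p hp
    rw [nuB_QW F a u p (mem_pz.1 hp).2.pos]
  have e3 : (N : ℝ) = (v : ℝ) - u := by
    have : ((N : ℤ) : ℝ) = ((v - u : ℤ) : ℝ) := by rw [hN]
    push_cast at this
    exact this
  rw [e2, e3] at h1
  have e4 : √(((z ^ K : ℕ) : ℝ)) ≤ (z : ℝ) ^ K := by
    push_cast
    have h2 : (1 : ℝ) ≤ (z : ℝ) ^ K := one_le_pow₀ (by exact_mod_cast hz1)
    rw [Real.sqrt_le_left (by positivity)]
    nlinarith
  refine le_trans (le_of_eq ?_) (h1.trans (by linarith))
  congr 3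
  rw [← e1]

end Pool.Agent.Q156.MW
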