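import Pool.Agent.Q156.MW.M3

/-!
The product of the local densities is not small without fixed prime divisors; elementary
inequalities.
-/

set_option autoImplicit false

namespace Pool.Agent.Q156.MW

open Finset Filter Topology Polynomial
open Pool.Agent.H373R2.T7 (pz Vz mem_pz Vz_low Vz_pos Vz_le_one)

lemma nu_lt {n : ℕ} (F : Fin n → ℤ[X]) (a : Fin n → ℤ) (p : ℕ) (hp : 0 < p)
    (h : ∃ m : ℤ, ∀ j, ¬ (p : ℤ) ∣ (F j).eval m + a j) : nu F a p < p := by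
  classical
  obtain ⟨m, hm⟩ := h
  obtain ⟨r, hr⟩ : ∃ r : ℕ, (r : ℤ) = m % p := ⟨(m % p).toNat, by
    rw [Int.toNat_of_nonneg]
    exact Int.emod_nonneg _ (by omega)⟩
  have hrp : r < p := by
    have : m % (p : ℤ) < p := Int.emod_lt_of_pos _ (by omega)
    omega
  have h1 : ∀ j, ¬ (p : ℤ) ∣ (F j).eval (r : ℤ) + a j := by
    intro j hj
    apply hm j
    refine (dvd_congr (F j) (a j) p m r ?_).2 hj
    rw [hr]
    exact Int.dvd_self_sub_emod
  unfold nu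
  refine lt_of_lt_of_eq (card_lt_card (filter_ssubset.2 ⟨r, mem_range.2 hrp, ?_⟩)) (card_range p)
  rintro ⟨j, hj⟩
  exact h1 j hj

lemma exp_aux (t : ℝ) (h0 : 0 ≤ t) (h1 : t ≤ 1 / 2) : Real.exp (-(2 * t)) ≤ 1 - t := by
  have h2 : 1 + 2 * t ≤ Real.exp (2 * t) := by
    have := Real.add_one_le_exp (2 * t)
    linarith
  rw [Real.exp_neg, inv_le_comm₀ (Real.exp_pos _) (by linarith)]
  refine le_trans ?_ h2
  rw [inv_le_iff_one_le_mul₀ (by linarith)]
  nlinarith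

lemma factor_low (c p ν : ℕ) (hp : 2 ≤ p) (hν : ν < p) (hνc : ν ≤ c) :
    (if p ≤ 2 * c then 1 / (p : ℝ) else 1) * (1 - 1 / (p : ℝ)) ^ (2 * c) ≤ 1 - (ν : ℝ) / p := by
  have hpr : (2 : ℝ) ≤ p := by exact_mod_cast hp
  have hp0 : (0 : ℝ) < p := by linarith
  have h1 : 0 ≤ 1 - 1 / (p : ℝ) := by
    rw [sub_nonneg, div_le_one hp0]
    linarith
  have h1' : 1 - 1 / (p : ℝ) ≤ 1 := by
    have : 0 ≤ 1 / (p : ℝ) := by positivity
    linarith
  have h2 : (1 - 1 / (p : ℝ)) ^ (2 * c) ≤ 1 := pow_le_one₀ h1 h1'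
  have h20 : 0 ≤ (1 - 1 / (p : ℝ)) ^ (2 * c) := pow_nonneg h1 _
  split_ifs with h
  · have h3 : (ν : ℝ) + 1 ≤ p := by exact_mod_cast hν
    have h4 : 1 / (p : ℝ) ≤ 1 - (ν : ℝ) / p := by
      rw [le_sub_iff_add_le, ← add_div, div_le_one hp0]
      linarith
    have h5 : 0 ≤ 1 / (p : ℝ) := by positivity
    nlinarith
  · rw [one_mul]
    have h3 : (2 * c : ℝ) < p := by
      have : 2 * c < p := by omega
      exact_mod_cast this
    have hc0 : (0 : ℝ) ≤ c := Nat.cast_nonneg _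
    have h4 : (1 - 1 / (p : ℝ)) ^ (2 * c) ≤ Real.exp (-(2 * ((c : ℝ) / p))) := by
      have h5 : 1 - 1 / (p : ℝ) ≤ Real.exp (-(1 / (p : ℝ))) := by
        have := Real.add_one_le_exp (-(1 / (p : ℝ)))
        linarith
      calc (1 - 1 / (p : ℝ)) ^ (2 * c) ≤ (Real.exp (-(1 / (p : ℝ)))) ^ (2 * c) := pow_le_pow_left₀ h1 h5 _
        _ = Real.exp (-(2 * ((c : ℝ) / p))) := by
            rw [← Real.exp_nat_mul]
            congr 1
            push_cast
            ring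
    have h6 : (c : ℝ) / p ≤ 1 / 2 := by
      rw [div_le_iff₀ hp0]
      linarith
    have h7 := exp_aux ((c : ℝ) / p) (by positivity) h6
    have h8 : (ν : ℝ) / p ≤ (c : ℝ) / p := div_le_div_of_nonneg_right (by exact_mod_cast hνc) hp0.le
    linarith

lemma dens_ge {n : ℕ} (F : Fin n → ℤ[X]) (hF : ∀ j, 1 ≤ (F j).natDegree) (a : Fin n → ℤ)
    (ha : ∀ p : ℕ, p.Prime → ∃ m : ℤ, ∀ j, ¬ (p : ℤ) ∣ (F j).eval m + a j) (z : ℕ) :
    (∏ p ∈ (Icc 1 (2 * cF F)).filter Nat.Prime, (1 / (p : ℝ))) * Vz z ^ (2 * cF F) ≤ dens F a z := by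
  classical
  obtain ⟨c, hc⟩ : ∃ c, c = cF F := ⟨_, rfl⟩
  rw [← hc]
  have h1 : ∏ p ∈ (Icc 1 z).filter Nat.Prime,
      ((if p ≤ 2 * c then 1 / (p : ℝ) else 1) * (1 - 1 / (p : ℝ)) ^ (2 * c)) ≤ dens F a z := by
    unfold dens
    apply Finset.prod_le_prod
    · intro p hp
      have hp2 : (2 : ℝ) ≤ p := by exact_mod_cast (mem_filter.1 hp).2.two_le
      have h3 : 0 ≤ 1 - 1 / (p : ℝ) := by
        rw [sub_nonneg, div_le_one (by linarith)]
        linarith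
      apply mul_nonneg _ (pow_nonneg h3 _)
      split_ifs
      · positivity
      · norm_num
    · intro p hp
      have hpp := (mem_filter.1 hp).2
      exact factor_low c p (nu F a p) hpp.two_le (nu_lt F a p hpp.pos (ha p hpp)) (by rw [hc]; exact nu_le F hF a p hpp)
  refine le_trans ?_ h1
  rw [prod_mul_distrib, prod_pow]
  apply mul_le_mul_of_nonneg_right _ (by
    have := (Vz_pos z).le
    unfold Vz pz at this
    positivity)
  rw [prod_ite, prod_const_one, mul_one]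
  have h2 : ((Icc 1 z).filter Nat.Prime).filter (fun p => p ≤ 2 * c) ⊆ (Icc 1 (2 * c)).filter Nat.Prime := by
    intro p hp
    obtain ⟨h3, h4⟩ := mem_filter.1 hp
    obtain ⟨h5, h6⟩ := mem_filter.1 h3
    exact mem_filter.2 ⟨mem_Icc.2 ⟨(mem_Icc.1 h5).1, h4⟩, h6⟩
  rw [← prod_sdiff h2]
  have h3 : ∀ p ∈ (Icc 1 (2 * c)).filter Nat.Prime, (1 : ℝ) / p ≤ 1 := by
    intro p hp
    have hp1 : (1 : ℝ) ≤ p := by exact_mod_cast (mem_filter.1 hp).2.one_le
    rw [div_le_one (by linarith)]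
    exact hp1
  have h4 : ∏ p ∈ ((Icc 1 (2 * c)).filter Nat.Prime) \ (((Icc 1 z).filter Nat.Prime).filter (fun p => p ≤ 2 * c)),
      (1 / (p : ℝ)) ≤ 1 :=
    prod_le_one (fun p _ => by positivity) (fun p hp => h3 p (mem_sdiff.1 hp).1)
  have h5 : 0 ≤ ∏ p ∈ ((Icc 1 z).filter Nat.Prime).filter (fun p => p ≤ 2 * c), (1 / (p : ℝ)) :=
    prod_nonneg (fun p _ => by positivity)
  exact mul_le_of_le_one_left h5 h4

end Pool.Agent.Q156.MW
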